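import Mathlib

set_option autoImplicit false
set_option linter.unusedSectionVars false

/-!
# A tool for colourings of tree decompositions (project TM, MP_41f3d4_co)

Subtrees of a rooted forest carry labels such that every node sees at most `P` labels. Then `P` numbers suffice
to tell apart any two labels of intersecting subtrees: the components of the unions of the subtrees with the same
label are subtrees, their intersection graph is chordal.
-/

namespace Pool.Agent.T6.H23.TM

open Finset

variable {N : Type} [DecidableEq N] (par : N → N) (rk : N → ℕ)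

/-- `A` is closed under parents, except at its top (verbatim as in `TreeMuOne`). -/
def Conn (A : Finset N) : Prop :=
  ∃ a ∈ A, ∀ z ∈ A, z ≠ a → par z ∈ A ∧ rk (par z) < rk z

variable {par rk}

theorem top_le {A : Finset N} {a : N} (h : ∀ z ∈ A, z ≠ a → par z ∈ A ∧ rk (par z) < rk z)
    {z : N} (hz : z ∈ A) : rk a ≤ rk z := by
  induction hn : rk z using Nat.strong_induction_on generalizing z with
  | _ n ih =>
    by_cases hza : z = a
    · rw [hza] at hn; omega
    · obtain ⟨h1, h2⟩ := h z hz hza
      have := ih (rk (par z)) (by omega) h1 rfl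
      omega

theorem top_mem {A B : Finset N} {a b : N}
    (hA : ∀ z ∈ A, z ≠ a → par z ∈ A ∧ rk (par z) < rk z)
    (hB : ∀ z ∈ B, z ≠ b → par z ∈ B ∧ rk (par z) < rk z)
    {z : N} (hzA : z ∈ A) (hzB : z ∈ B) : a ∈ B ∨ b ∈ A := by
  induction hn : rk z using Nat.strong_induction_on generalizing z with
  | _ n ih =>
    by_cases hza : z = a
    · left; rw [← hza]; exact hzB
    · by_cases hzb : z = b
      · right; rw [← hzb]; exact hzA
      · obtain ⟨h1, h2⟩ := hA z hzA hza
        obtain ⟨h3, h4⟩ := hB z hzB hzb
        exact ih (rk (par z)) (by omega) h1 h3 rfl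

theorem top_eq {B : Finset N} {a b : N}
    (hB : ∀ z ∈ B, z ≠ b → par z ∈ B ∧ rk (par z) < rk z)
    (haB : a ∈ B) (h : rk a ≤ rk b) : a = b := by
  by_contra hab
  obtain ⟨h1, h2⟩ := hB a haB hab
  have := top_le hB h1
  omega

theorem Conn.union {A B : Finset N} (hA : Conn par rk A) (hB : Conn par rk B)
    (h : (A ∩ B).Nonempty) : Conn par rk (A ∪ B) := by
  have key : ∀ A B : Finset N, ∀ a b : N, b ∈ B →
      (∀ z ∈ A, z ≠ a → par z ∈ A ∧ rk (par z) < rk z) →
      (∀ z ∈ B, z ≠ b → par z ∈ B ∧ rk (par z) < rk z) → a ∈ B → Conn par rk (A ∪ B) := by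
    intro A B a b hbB hA' hB' haB
    refine ⟨b, Finset.mem_union_right _ hbB, ?_⟩
    intro z hz hzb
    by_cases hzB : z ∈ B
    · obtain ⟨h1, h2⟩ := hB' z hzB hzb
      exact ⟨Finset.mem_union_right _ h1, h2⟩
    · have hzA : z ∈ A := by
        rcases Finset.mem_union.1 hz with h1 | h1
        · exact h1
        · exact absurd h1 hzB
      have hza : z ≠ a := fun hh => hzB (hh ▸ haB)
      obtain ⟨h1, h2⟩ := hA' z hzA hza
      exact ⟨Finset.mem_union_left _ h1, h2⟩
  obtain ⟨a, haA, hA'⟩ := hA
  obtain ⟨b, hbB, hB'⟩ := hB
  obtain ⟨z, hz⟩ := h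
  obtain ⟨hzA, hzB⟩ := Finset.mem_inter.1 hz
  rcases top_mem hA' hB' hzA hzB with h1 | h1
  · exact key A B a b hbB hA' hB' h1
  · rw [Finset.union_comm]
    exact key B A b a haA hB' hA' h1

theorem exists_last {V : Type} [DecidableEq V] (M : Finset V) (hM : M.Nonempty)
    (T : V → Finset N) (hT : ∀ m ∈ M, Conn par rk (T m)) :
    ∃ m ∈ M, ∃ a ∈ T m, ∀ m' ∈ M, (T m ∩ T m').Nonempty → a ∈ T m' := by
  classical
  have htop : ∀ m, ∃ a, m ∈ M → a ∈ T m ∧ ∀ z ∈ T m, z ≠ a → par z ∈ T m ∧ rk (par z) < rk z := by
    intro m
    by_cases hm : m ∈ M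
    · obtain ⟨a, h1, h2⟩ := hT m hm
      exact ⟨a, fun _ => ⟨h1, h2⟩⟩
    · obtain ⟨m0, hm0⟩ := hM
      obtain ⟨a, -, -⟩ := hT m0 hm0
      exact ⟨a, fun hh => absurd hh hm⟩
  choose top htop using htop
  obtain ⟨m, hm, hmax⟩ := Finset.exists_max_image M (fun m => rk (top m)) hM
  refine ⟨m, hm, top m, (htop m hm).1, ?_⟩
  intro m' hm' hmm'
  obtain ⟨z, hz⟩ := hmm'
  rcases top_mem (htop m hm).2 (htop m' hm').2 (Finset.mem_inter.1 hz).1
    (Finset.mem_inter.1 hz).2 with h1 | h1
  · exact h1
  · have h2 := hmax m' hm'
    have h3 := top_eq (htop m hm).2 h1 h2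
    rw [← h3]
    exact (htop m' hm').1

theorem label_aux {V C : Type} [DecidableEq V] [DecidableEq C] (c : V → C) (P : ℕ) (n : ℕ) :
    ∀ (S : Finset V) (T : V → Finset N), S.card = n → (∀ v ∈ S, Conn par rk (T v)) →
      (∀ t : N, ((S.filter (fun v => t ∈ T v)).image c).card ≤ P) →
      ∃ f : V → ℕ, (∀ x ∈ S, f x < P) ∧ ∀ x ∈ S, ∀ y ∈ S, (T x ∩ T y).Nonempty →
        (f x = f y ↔ c x = c y) := by
  induction n with
  | zero =>
    intro S T hS hT hP
    rw [Finset.card_eq_zero] at hS
    subst hS
    exact ⟨fun _ => 0, by simp, by simp⟩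
  | succ n ih =>
    intro S T hS hT hP
    by_cases hm : ∃ x ∈ S, ∃ y ∈ S, x ≠ y ∧ c x = c y ∧ (T x ∩ T y).Nonempty
    · obtain ⟨x, hx, y, hy, hxy, hc, hne⟩ := hm
      set T' : V → Finset N := Function.update T x (T x ∪ T y) with hT'
      have hx' : x ∈ S.erase y := Finset.mem_erase.2 ⟨hxy, hx⟩
      have hTx : T' x = T x ∪ T y := by rw [hT', Function.update_self]
      have hTo : ∀ z, z ≠ x → T' z = T z := fun z hz => by rw [hT', Function.update_of_ne hz]
      have hsub : ∀ z, T z ⊆ T' z := by
        intro z
        by_cases hz : z = x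
        · rw [hz, hTx]; exact Finset.subset_union_left
        · rw [hTo z hz]
      obtain ⟨f, hf1, hf2⟩ := ih (S.erase y) T' (by rw [Finset.card_erase_of_mem hy, hS]; rfl)
        (by
          intro v hv
          by_cases hvx : v = x
          · rw [hvx, hTx]
            exact Conn.union (hT x hx) (hT y hy) hne
          · rw [hTo v hvx]
            exact hT v (Finset.mem_of_mem_erase hv))
        (by
          intro t
          refine le_trans (Finset.card_le_card ?_) (hP t)
          intro q hq
          rw [Finset.mem_image] at hq ⊢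
          obtain ⟨v, hv, rfl⟩ := hq
          rw [Finset.mem_filter] at hv
          by_cases hvx : v = x
          · have h1 : t ∈ T x ∪ T y := by
              have := hv.2
              rw [hvx, hTx] at this
              exact this
            rcases Finset.mem_union.1 h1 with h2 | h2
            · exact ⟨x, Finset.mem_filter.2 ⟨hx, h2⟩, by rw [hvx]⟩
            · exact ⟨y, Finset.mem_filter.2 ⟨hy, h2⟩, by rw [hvx, hc]⟩
          · refine ⟨v, Finset.mem_filter.2 ⟨Finset.mem_of_mem_erase hv.1, ?_⟩, rfl⟩
            have := hv.2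
            rw [hTo v hvx] at this
            exact this)
      have hyx : y ≠ x := fun h => hxy h.symm
      refine ⟨Function.update f y (f x), ?_, ?_⟩
      · intro v hv
        by_cases hvy : v = y
        · rw [hvy, Function.update_self]
          exact hf1 x hx'
        · rw [Function.update_of_ne hvy]
          exact hf1 v (Finset.mem_erase.2 ⟨hvy, hv⟩)
      · have key : ∀ z ∈ S, z ≠ y → (T z ∩ T y).Nonempty → (f z = f x ↔ c z = c y) := by
          intro z hz hzy hzne
          rw [← hc]
          refine hf2 z (Finset.mem_erase.2 ⟨hzy, hz⟩) x hx' ?_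
          obtain ⟨s, hs⟩ := hzne
          rw [Finset.mem_inter] at hs
          exact ⟨s, Finset.mem_inter.2 ⟨hsub z hs.1, by rw [hTx]; exact Finset.mem_union_right _ hs.2⟩⟩
        intro u hu v hv huv
        by_cases huy : u = y
        · by_cases hvy : v = y
          · rw [huy, hvy]; simp
          · rw [huy, Function.update_self, Function.update_of_ne hvy, eq_comm, eq_comm (a := c y)]
            refine key v hv hvy ?_
            rw [Finset.inter_comm, ← huy]
            exact huv
        · by_cases hvy : v = y
          · rw [hvy, Function.update_self, Function.update_of_ne huy]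
            refine key u hu huy ?_
            rw [← hvy]
            exact huv
          · rw [Function.update_of_ne huy, Function.update_of_ne hvy]
            exact hf2 u (Finset.mem_erase.2 ⟨huy, hu⟩) v (Finset.mem_erase.2 ⟨hvy, hv⟩)
              (huv.mono (Finset.inter_subset_inter (hsub u) (hsub v)))
    · push Not at hm
      have hSne : S.Nonempty := Finset.card_pos.1 (by omega)
      obtain ⟨m, hmS, a, ham, hlast⟩ := exists_last S hSne T hT
      obtain ⟨f, hf1, hf2⟩ := ih (S.erase m) T (by rw [Finset.card_erase_of_mem hmS, hS]; rfl)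
        (fun v hv => hT v (Finset.mem_of_mem_erase hv))
        (fun t => le_trans (Finset.card_le_card (Finset.image_subset_image
          (Finset.filter_subset_filter _ (Finset.erase_subset _ _)))) (hP t))
      -- the members through `a`
      set Q := (S.erase m).filter (fun v => a ∈ T v) with hQ
      have hQcard : Q.card < P := by
        have h1 : (S.filter (fun v => a ∈ T v)).card ≤ P := by
          refine le_trans (le_of_eq ?_) (hP a)
          rw [Finset.card_image_of_injOn]
          intro u hu v hv huv
          by_contra hne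
          rw [Finset.mem_coe, Finset.mem_filter] at hu hv
          have := hm u hu.1 v hv.1 hne huv
          have h3 : a ∈ T u ∩ T v := Finset.mem_inter.2 ⟨hu.2, hv.2⟩
          rw [this] at h3
          simp at h3
        have h2 : Q = (S.filter (fun v => a ∈ T v)).erase m := by
          ext v
          simp only [hQ, Finset.mem_filter, Finset.mem_erase]
          tauto
        have h3 : m ∈ S.filter (fun v => a ∈ T v) := Finset.mem_filter.2 ⟨hmS, ham⟩
        rw [h2, Finset.card_erase_of_mem h3]
        have := Finset.card_pos.2 ⟨m, h3⟩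
        omega
      obtain ⟨k, hk1, hk2⟩ : ∃ k ∈ Finset.range P, k ∉ Q.image f := by
        by_contra hcon
        push Not at hcon
        have h1 : Finset.range P ⊆ Q.image f := fun k hk => hcon k hk
        have h2 := Finset.card_le_card h1
        rw [Finset.card_range] at h2
        have h3 := Finset.card_image_le (s := Q) (f := f)
        omega
      rw [Finset.mem_range] at hk1
      refine ⟨Function.update f m k, ?_, ?_⟩
      · intro v hv
        by_cases hvm : v = m
        · rw [hvm, Function.update_self]; exact hk1
        · rw [Function.update_of_ne hvm]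
          exact hf1 v (Finset.mem_erase.2 ⟨hvm, hv⟩)
      · have key : ∀ z ∈ S, z ≠ m → (T m ∩ T z).Nonempty → (k ≠ f z ∧ c m ≠ c z) := by
          intro z hz hzm hzne
          constructor
          · intro hkz
            apply hk2
            rw [Finset.mem_image]
            exact ⟨z, Finset.mem_filter.2 ⟨Finset.mem_erase.2 ⟨hzm, hz⟩, hlast z hz hzne⟩, hkz.symm⟩
          · intro hcz
            have h5 := hm m hmS z hz (fun h => hzm h.symm) hcz
            rw [h5] at hzne
            exact Finset.not_nonempty_empty hzne
        intro u hu v hv huv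
        by_cases hum : u = m
        · by_cases hvm : v = m
          · rw [hum, hvm]; simp
          · rw [hum, Function.update_self, Function.update_of_ne hvm]
            obtain ⟨h1, h2⟩ := key v hv hvm (by rw [← hum]; exact huv)
            exact ⟨fun h => absurd h h1, fun h => absurd h h2⟩
        · by_cases hvm : v = m
          · rw [hvm, Function.update_self, Function.update_of_ne hum]
            obtain ⟨h1, h2⟩ := key u hu hum (by rw [Finset.inter_comm, ← hvm]; exact huv)
            exact ⟨fun h => absurd h.symm h1, fun h => absurd h.symm h2⟩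
          · rw [Function.update_of_ne hum, Function.update_of_ne hvm]
            exact hf2 u (Finset.mem_erase.2 ⟨hum, hu⟩) v (Finset.mem_erase.2 ⟨hvm, hv⟩) huv

/-- **Tool 4a.** Subtrees `T v`, `v ∈ S`, carry labels `c v` such that every node sees at most `P` labels. Then there are
numbers `f v < P` which tell apart the labels of any two subtrees that meet. -/
theorem label {V C : Type} [DecidableEq V] [DecidableEq C] (c : V → C) (P : ℕ)
    (S : Finset V) (T : V → Finset N) (hT : ∀ v ∈ S, Conn par rk (T v))
    (hP : ∀ t : N, ((S.filter (fun v => t ∈ T v)).image c).card ≤ P) :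
    ∃ f : V → ℕ, (∀ x ∈ S, f x < P) ∧ ∀ x ∈ S, ∀ y ∈ S, (T x ∩ T y).Nonempty →
      (f x = f y ↔ c x = c y) :=
  label_aux c P S.card S T rfl hT hP

end Pool.Agent.T6.H23.TM
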